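import Pool.Agent.LoopO1_f0ab88.Main
import Pool.Agent.LoopO1_f0ab88.Sharp6

/-!
# Uniqueness of Gibbs measures for the subcritical loop O(1) model
-/

open MeasureTheory Pool.Agent.LoopO1

namespace Pool.Agent.Results.MP_f0ab88_pr.SubcriticalUniqueness

/-- For every `d ≥ 2` and every `0 < x < tanh β_c(d)`, the loop O(1) model on `ℤ^d` with parameter
`x` has exactly one Gibbs measure. -/
theorem result (d : ℕ) (hd : 2 ≤ d) (x : ℝ) (hx : 0 < x) (hxc : x < Real.tanh (betac d)) :
    ∃! μ : Measure (Cfg d), IsGibbs d x μ :=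
  existsUnique_of_sharp hd
    (fun _ _ h0 h12 hm => hasDecay_of_mStar (by omega) h0 h12 hm) hx hxc

end Pool.Agent.Results.MP_f0ab88_pr.SubcriticalUniqueness
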